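import Pool.Agent.H33.Hr4

set_option autoImplicit false

namespace Pool.Agent.Results.MP_5317c0_an.Full

open Pool.Agent.H33.Hr TopologicalSpace

theorem result :
    (∃ (Y : Type) (_ : TopologicalSpace Y) (_ : CompactSpace Y) (_ : MetrizableSpace Y)
      (S : Y ≃ₜ Y), (∀ y : Y, ¬ IsOpen ({y} : Set Y)) ∧ HilbertSys S ∧ ¬ HRep S ∧
        ∀ (X : Type) [TopologicalSpace X] [CompactSpace X] [MetrizableSpace X] (T : X ≃ₜ X),
          HRep T → ¬ GroupFactor T S) ∧
    ∀ (Y : Type) [TopologicalSpace Y] [CompactSpace Y] [MetrizableSpace Y] (S : Y ≃ₜ Y),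
      HilbertSys S → ∃ (X : Type) (_ : TopologicalSpace X) (_ : CompactSpace X)
        (_ : MetrizableSpace X) (T : X ≃ₜ X) (π : X → Y), HRep T ∧ Factor T S π ∧ Almost11 π := by
  have := compact_Y
  exact ⟨⟨Cl ya, inferInstance, this, inferInstance, Sh ya, no_iso, hilb,
    fun h => not_group _ h (self_group _), fun X _ _ _ T h => not_group T h⟩,
    fun Y _ _ _ S h => almost S h⟩

end Pool.Agent.Results.MP_5317c0_an.Full
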